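import Pool.Agent.H153_MeetIrr.LowerFinal

/-! Explicit lower bounds for the largest number `f n` of meet-irreducible elements of a finite
lattice with exactly `n` join-irreducible elements:
`f n ≥ (1 + 9/(8(n+3))) C(n, n/2)` for even `n ≥ 6`, and
`f n ≥ (1 + 25/(16(n+1))) C(n, (n-1)/2)` for odd `n ≥ 7`.

Even case, `n = 2k`: fix a set `S` of three points. Take all `k`-sets meeting `S`, all
`(k-1)`-sets avoiding `S`, and one residue class (for an injective labelling by
`ℤ/(2k+1)` with suitable gaps) of the `(k-1)`-sets with at least two points in `S` and of the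
`(k-2)`-sets avoiding `S`. Every member has a private element, so the complements generate a
lattice whose meet-irreducibles are exactly these sets. Odd case: add one point, using
`f(n+1) ≥ f(n) + C(n,t)`.
-/

namespace Pool.Agent.Results.MP_78e117_co.LowerBound

open Pool.Agent.H153_MeetIrr

theorem result (n : ℕ) (hn : 6 ≤ n) :
    IsGreatest (meetCounts n) (f n) ∧
      (Even n → (8 * n + 33) * n.choose (n / 2) ≤ 8 * (n + 3) * f n) ∧
      (Odd n → (16 * n + 41) * n.choose (n / 2) ≤ 16 * (n + 1) * f n) := by
  refine ⟨isGreatest_f (by omega), ?_, ?_⟩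
  · rintro ⟨k, hk⟩
    have e1 : n = 2 * k := by omega
    subst e1
    have e2 : 2 * k / 2 = k := by omega
    rw [e2]
    have := f_even_lower3 (k := k) (by omega)
    calc (8 * (2 * k) + 33) * (2 * k).choose k = (16 * k + 33) * (2 * k).choose k := by ring
      _ ≤ _ := this
  · rintro ⟨k, hk⟩
    subst hk
    have e2 : (2 * k + 1) / 2 = k := by omega
    rw [e2]
    exact f_odd_lower3 (k := k) (by omega)

end Pool.Agent.Results.MP_78e117_co.LowerBound
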