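import Pool.Agent.H153_MeetIrr.AsymLimit

/-! Sharp second-order asymptotics of the largest number `f n` of meet-irreducible elements of a
finite lattice with exactly `n` join-irreducible elements:
`n * (f n / C(n, ⌊n/2⌋) - 1) → 2`, that is `f n = (1 + 2/n + o(1/n)) * C(n, ⌊n/2⌋)`.

Upper bound: `⌊n/2⌋ · f n ≤ (⌊n/2⌋ + 1) · (C(n, ⌊n/2⌋) - 1)` (helper files Core, Count, Push).

Lower bound. Let `n = 2 k`. Take pairwise disjoint blocks `Q_1, ..., Q_N` of points, of
nondecreasing sizes. Let `U` be the family of all sets `A` for which some block `Q_i` satisfies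
`A ∩ Q_i = ∅` and `|A ∩ Q_j| ≥ 2` for all `j < i`. A set outside `U` has at most one point whose
removal gives a set in `U`. Hence in the family of all `k`-sets outside `U` and all
`(k-1)`-sets in `U` every member contains at most one other member, and so no member is a union
of others. The gain over the middle level is governed by the mean of `m - 2 |A| - 1` over `U`
(`m` is the number of points in the blocks). When the block sizes grow in phases, each much larger
than the previous ones, this mean tends to `1`, which gives `f (2k) ≥ (1 + (1 - o(1))/k) C(2k, k)`.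
For odd `n` use `f (2k+1) ≥ f (2k) + C(2k, k)`.
-/

namespace Pool.Agent.Results.MP_78e117_co.SecondOrder

open Pool.Agent.H153_MeetIrr

theorem result :
    (∀ n : ℕ, 2 ≤ n → IsGreatest (meetCounts n) (f n)) ∧
      Filter.Tendsto (fun n : ℕ => (n : ℝ) * ((f n : ℝ) / (n.choose (n / 2) : ℝ) - 1))
        Filter.atTop (nhds 2) :=
  ⟨fun _ hn => isGreatest_f hn, asymptotic⟩

end Pool.Agent.Results.MP_78e117_co.SecondOrder
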