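import Pool.Agent.H153_MeetIrr.SmallValues

/-! The exact values of the largest number `f n` of meet-irreducible elements of a finite lattice
with exactly `n` join-irreducible elements, for `1 ≤ n ≤ 7`: they are `1, 2, 4, 7, 13, 24, 44`.

Upper bounds, no case search over families: with `k = ⌈n/2⌉`, `N = n - k + 1`, an extremal family
satisfies `(N-1) |F| + #(minimal members) + Σ_{A reducible, |A| ≤ k} (N - |A|) ≤ N C(n,k)`
(`Star.lean`), and the minimal members cannot be met by `n - k` points.
Lower bounds: `f(n+1) ≥ f(n) + C(n,t)`, and for `n = 6` two disjoint triangles together with all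
other triples. -/

namespace Pool.Agent.Results.MP_78e117_co.SmallValues

open Pool.Agent.H153_MeetIrr

theorem result :
    (∀ n, 1 ≤ n → n ≤ 7 → IsGreatest (meetCounts n) (f n)) ∧
      f 1 = 1 ∧ f 2 = 2 ∧ f 3 = 4 ∧ f 4 = 7 ∧ f 5 = 13 ∧ f 6 = 24 ∧ f 7 = 44 := by
  refine ⟨?_, f_one, f_small⟩
  intro n h1 _
  rcases Nat.lt_or_ge n 2 with h | h
  · have e : n = 1 := by omega
    subst e
    rw [f_one]
    exact isGreatest_one
  · exact isGreatest_f h

end Pool.Agent.Results.MP_78e117_co.SmallValues
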