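import Pool.Agent.H153_MeetIrr.Extremal

/-! For every `n ≥ 2` the largest number `f n` of meet-irreducible elements of a finite lattice
with exactly `n` join-irreducible elements satisfies
`⌊n/2⌋ · f n ≤ (⌊n/2⌋ + 1) · (C(n, ⌊n/2⌋) - 1)`.

Proof idea. The meet-irreducibles give a family `F` of subsets of the `n`-set of join-irreducibles
in which every member has a private element (a point lying in no smaller member). Replacing the
largest members by subsets we may assume all members have at most `k = ⌈n/2⌉` elements, and by
maximality every `k`-set is a union of members. Let `𝓛` be the unions of members. Double counting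
pairs `(A \ {x}, A)` between `𝓛` and the reducible sets gives an exact formula for `|F|`. The
error term at `D ∈ 𝓛` is bounded by looking at the simplicial complex of the sets `Y` such
that the interior of `D ∪ Y` is `D`: each point outside a maximal face produces a minimal non-face,
hence a new member whose interior is `D`, or a reducible set with a non-closed lower neighbour.
-/

namespace Pool.Agent.Results.MP_78e117_co.UpperBound

open Pool.Agent.H153_MeetIrr

theorem result (n : ℕ) (hn : 2 ≤ n) :
    IsGreatest (meetCounts n) (f n) ∧
      (n / 2) * f n ≤ (n / 2 + 1) * (n.choose (n / 2) - 1) := by
  refine ⟨isGreatest_f hn, ?_⟩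
  rw [Nat.mul_comm]
  exact meetCounts_bound (by omega) (isGreatest_f hn).1

end Pool.Agent.Results.MP_78e117_co.UpperBound
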